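import Pool.Agent.Helper55.SD.LA

/-! # from the ideal of the elementary symmetric polynomials to the block ideal -/

open Finset
open scoped BigOperators ENNReal

set_option linter.unusedSectionVars false

namespace Pool.SDL

universe u
variable (K : Type u) [Field K]

theorem finite_degree {σ : Type*} [Fintype σ] (d : ℕ) : {μ : σ →₀ ℕ | μ.degree = d}.Finite := by
  classical
  apply Set.Finite.subset (finsuppAntidiag (univ : Finset σ) d).finite_toSet
  intro μ hμ
  rw [Set.mem_ofPred_eq] at hμ
  rw [mem_coe, mem_finsuppAntidiag]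
  refine ⟨?_, subset_univ _⟩
  rw [← hμ, Finsupp.degree_eq_sum]

theorem finite_Id {σ κ : Type*} [Fintype σ] [Finite κ] (g : κ → MvPolynomial σ K) (d : ℕ) :
    Module.Finite K (Id g d) := by
  have h : {f : MvPolynomial σ K | ∃ (μ : σ →₀ ℕ) (k : κ), μ.degree = d ∧
      f = MvPolynomial.monomial μ 1 * g k}.Finite := by
    have h1 : ({μ : σ →₀ ℕ | μ.degree = d} ×ˢ (Set.univ : Set κ)).Finite :=
      (finite_degree d).prod Set.finite_univ
    apply (h1.image (fun p => MvPolynomial.monomial p.1 1 * g p.2)).subset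
    rintro f ⟨μ, k, h2, rfl⟩
    exact ⟨(μ, k), ⟨h2, Set.mem_univ _⟩, rfl⟩
  exact Module.Finite.span_of_finite K h

theorem mul_mem_Id {σ κ : Type*} (g : κ → MvPolynomial σ K) (d : ℕ) (ν : σ →₀ ℕ)
    (hν : ν.degree = d) (f : MvPolynomial σ K) (hf : f ∈ Submodule.span K (Set.range g)) :
    MvPolynomial.monomial ν 1 * f ∈ Id g d := by
  induction hf using Submodule.span_induction with
  | mem x hx =>
    obtain ⟨k, rfl⟩ := hx
    exact Submodule.subset_span ⟨ν, k, hν, rfl⟩
  | zero => rw [mul_zero]; exact Submodule.zero_mem _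
  | add x y _ _ hx hy => rw [mul_add]; exact Submodule.add_mem _ hx hy
  | smul c x _ hx => rw [mul_smul_comm]; exact Submodule.smul_mem _ _ hx

/-- the degree-`e` part of the ideal generated by `e_(N-a), ..., e_N` -/
noncomputable def LJ (N a e : ℕ) : Submodule K (MvPolynomial (Option (Fin N)) K) :=
  Submodule.span K {f | ∃ (μ : Option (Fin N) →₀ ℕ) (r : ℕ), r ≤ a ∧ μ.degree + (N - r) = e ∧
    f = MvPolynomial.monomial μ 1 * MvPolynomial.rename some (MvPolynomial.esymm (Fin N) K (N - r))}

theorem LJ_le [CharZero K] (N a : ℕ) (haN : a < N) (d : ℕ) :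
    (LJ K N a (d + (N - a))).map (LinearMap.mulLeft K (MvPolynomial.X none ^ (2 * a))) ≤
      Id (bp K N a) d := by
  rw [LJ, Submodule.map_span, Submodule.span_le]
  rintro _ ⟨f, ⟨μ, r, hr, hμ, rfl⟩, rfl⟩
  rw [LinearMap.mulLeft_apply]
  have h1 : MvPolynomial.X none ^ (2 * a) * (MvPolynomial.monomial μ 1 *
      MvPolynomial.rename some (MvPolynomial.esymm (Fin N) K (N - r))) =
      MvPolynomial.monomial (Finsupp.single none (a - r) + μ) 1 *
      (MvPolynomial.X none ^ (a + r) *
      MvPolynomial.rename some (MvPolynomial.esymm (Fin N) K (N - r))) := by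
    have h2 : 2 * a = (a - r) + (a + r) := by omega
    rw [h2, pow_add, MvPolynomial.X_pow_eq_monomial (n := none) (e := a - r)]
    have h3 : (MvPolynomial.monomial (Finsupp.single none (a - r) + μ) (1 : K)) =
        MvPolynomial.monomial (Finsupp.single none (a - r)) 1 * MvPolynomial.monomial μ 1 := by
      rw [MvPolynomial.monomial_mul, one_mul]
    rw [h3]
    ring
  rw [h1]
  apply mul_mem_Id
  · rw [map_add, Finsupp.degree_single]
    omega
  · exact LA K N a haN r hr

theorem finrank_LJ_le [CharZero K] (N a : ℕ) (haN : a < N) (d : ℕ) :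
    Module.finrank K (LJ K N a (d + (N - a))) ≤ Module.finrank K (Id (bp K N a) d) := by
  have hinj : Function.Injective (LinearMap.mulLeft K
      (MvPolynomial.X none ^ (2 * a) : MvPolynomial (Option (Fin N)) K)) := by
    intro x y h
    rw [LinearMap.mulLeft_apply, LinearMap.mulLeft_apply] at h
    exact mul_left_cancel₀ (pow_ne_zero _ (MvPolynomial.X_ne_zero none)) h
  rw [(Submodule.equivMapOfInjective _ hinj (LJ K N a (d + (N - a)))).finrank_eq]
  have := finite_Id K (bp K N a) d
  exact Submodule.finrank_mono (LJ_le K N a haN d)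

theorem LJ_bot (N a e : ℕ) (he : e < N - a) : LJ K N a e = ⊥ := by
  rw [LJ, Submodule.span_eq_bot]
  rintro f ⟨μ, r, hr, hμ, rfl⟩
  omega

theorem block_of_LJ [CharZero K] (N a : ℕ) (haN : a < N) (Q : ℝ≥0∞) :
    ∑' e, Q ^ e * (Module.finrank K (LJ K N a e) : ℝ≥0∞) ≤
      Q ^ (N - a) * ∑' d, Q ^ d * (Module.finrank K (Id (bp K N a) d) : ℝ≥0∞) := by
  have h1 : ∑' e, Q ^ e * (Module.finrank K (LJ K N a e) : ℝ≥0∞) =
      ∑' d, Q ^ (d + (N - a)) * (Module.finrank K (LJ K N a (d + (N - a))) : ℝ≥0∞) := by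
    rw [← Function.Injective.tsum_eq (g := fun d : ℕ => d + (N - a))
      (fun x y h => by simpa using h)]
    intro e he
    rw [Function.mem_support] at he
    by_contra hn
    apply he
    have : e < N - a := by
      by_contra h2
      exact hn ⟨e - (N - a), by dsimp only; omega⟩
    rw [LJ_bot K N a e this]
    simp
  rw [h1, ← ENNReal.tsum_mul_left]
  apply ENNReal.tsum_le_tsum
  intro d
  rw [pow_add, mul_comm (Q ^ d) (Q ^ (N - a)), mul_assoc]
  gcongr
  exact_mod_cast finrank_LJ_le K N a haN d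

end Pool.SDL
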