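import Pool.Agent.Helper55.SD.Up
import Pool.Agent.Helper72.SDet.M9
import Pool.Agent.SDet.LB3

/-! # SDET, side (L) -/

open Finset
open scoped BigOperators ENNReal

namespace Pool.SDL

universe u
variable (K : Type u) [Field K]

/-- one block, from the bound for the ideal of the elementary symmetric polynomials -/
theorem block_of [CharZero K] (N a : ℕ) (haN : a < N) (Q : ℝ≥0∞)
    (h : 1 - (1 - Q ^ N) ^ (a + 1) ≤
      (1 - Q) ^ (N + 1) * ∑' e, Q ^ e * (Module.finrank K (LJ K N a e) : ℝ≥0∞)) :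
    1 - (1 - Q ^ N) ^ (a + 1) ≤
      Q ^ (N - a) * (1 - Q) ^ (N + 1) *
        ∑' d, Q ^ d * (Module.finrank K (Id (bp K N a) d) : ℝ≥0∞) := by
  refine h.trans ?_
  rw [mul_comm (Q ^ (N - a)), mul_assoc]
  gcongr
  exact block_of_LJ K N a haN Q

/-- side (L), from the bound for one block -/
theorem sideL_of (B : Type*) (E : Type) [Fintype B] [Fintype E]
    (N a : ℕ) (Q : ℝ≥0∞) (hQ : Q < 1)
    (h1 : 1 - (1 - Q ^ N) ^ (a + 1) ≤
      Q ^ (N - a) * (1 - Q) ^ (N + 1) *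
        ∑' d, Q ^ d * (Module.finrank K (Id (bp K N a) d) : ℝ≥0∞)) :
    (1 - (1 - Q ^ N) ^ (a + 1)) ^ Fintype.card B ≤
      Q ^ ((N - a) * Fintype.card B) *
        ((1 - Q) ^ (Fintype.card ((B × Option (Fin N)) ⊕ E) + 1) *
          ∑' l, Q ^ l * (Module.finrank K (Vl B E (bp K N a) l) : ℝ≥0∞)) := by
  have h2 := M9 (K := K) B E (bp K N a) (N + a) (bp_homog K N a) Q hQ
  calc (1 - (1 - Q ^ N) ^ (a + 1)) ^ Fintype.card B
      ≤ (Q ^ (N - a) * (1 - Q) ^ (N + 1) *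
        ∑' d, Q ^ d * (Module.finrank K (Id (bp K N a) d) : ℝ≥0∞)) ^ Fintype.card B := by
        gcongr
    _ = Q ^ ((N - a) * Fintype.card B) * (1 - Q) ^ ((N + 1) * Fintype.card B) *
        (∑' d, Q ^ d * (Module.finrank K (Id (bp K N a) d) : ℝ≥0∞)) ^ Fintype.card B := by
        rw [mul_pow, mul_pow, ← pow_mul, ← pow_mul]
    _ ≤ Q ^ ((N - a) * Fintype.card B) * (1 - Q) ^ ((N + 1) * Fintype.card B) *
        ((1 - Q) ^ (Fintype.card E + 1) *
        ∑' l, Q ^ l * (Module.finrank K (Vl B E (bp K N a) l) : ℝ≥0∞)) := by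
        gcongr
    _ = _ := by
        rw [mul_assoc, ← mul_assoc ((1 - Q) ^ ((N + 1) * Fintype.card B)), ← pow_add]
        congr 3
        simp [Fintype.card_sum, Fintype.card_prod]
        ring

/-- one block -/
theorem block [CharZero K] (N a : ℕ) (haN : a < N) (Q : ℝ≥0∞) (hQ : Q < 1) :
    1 - (1 - Q ^ N) ^ (a + 1) ≤
      Q ^ (N - a) * (1 - Q) ^ (N + 1) *
        ∑' d, Q ^ d * (Module.finrank K (Id (bp K N a) d) : ℝ≥0∞) :=
  block_of K N a haN Q (SDet.LJ_series' K N a haN Q hQ)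

/-- side (L) -/
theorem sideL [CharZero K] (B : Type*) (E : Type) [Fintype B] [Fintype E]
    (N a : ℕ) (haN : a < N) (Q : ℝ≥0∞) (hQ : Q < 1) :
    (1 - (1 - Q ^ N) ^ (a + 1)) ^ Fintype.card B ≤
      Q ^ ((N - a) * Fintype.card B) *
        ((1 - Q) ^ (Fintype.card ((B × Option (Fin N)) ⊕ E) + 1) *
          ∑' l, Q ^ l * (Module.finrank K (Vl B E (bp K N a) l) : ℝ≥0∞)) :=
  sideL_of K B E N a Q hQ (block K N a haN Q hQ)

end Pool.SDL
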