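import Mathlib

/-! # SDET, side (L): definitions -/

open MvPolynomial Finset
open scoped BigOperators ENNReal

namespace Pool.SDL

universe u

/-- permanent of a matrix whose rows and columns have different index types: the sum over
the bijections from rows to columns -/
noncomputable def rper {R I J : Type*} [CommRing R] [Fintype I] [DecidableEq I] [Fintype J]
    [DecidableEq J] (M : I → J → R) : R :=
  ∑ e : I ≃ J, ∏ i, M i (e i)

/-- the tall block: `(N + (a+1)) x (N + a)`, variables `none` (called h) and `some j` (called u_j) -/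
noncomputable def tall (K : Type u) [Field K] (N a : ℕ) :
    (Fin N ⊕ Fin (a + 1)) → (Fin N ⊕ Fin a) → MvPolynomial (Option (Fin N)) K
  | Sum.inl j, Sum.inl _ => X (some j)
  | Sum.inl _, Sum.inr _ => X none
  | Sum.inr _, Sum.inl _ => X none
  | Sum.inr k, Sum.inr _ => C (-(k : ℕ) : K) * X none

/-- the block subpermanent: the special row `k` is omitted -/
noncomputable def bp (K : Type u) [Field K] (N a : ℕ) (k : Fin (a + 1)) :
    MvPolynomial (Option (Fin N)) K :=
  rper (fun (i : {i : Fin N ⊕ Fin (a + 1) // i ≠ Sum.inr k}) (j : Fin N ⊕ Fin a) =>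
    tall K N a i.1 j)

variable {K : Type u} [Field K]

/-- degree-`d` multiples of the generators `g` -/
noncomputable def Id {σ κ : Type*} (g : κ → MvPolynomial σ K) (d : ℕ) :
    Submodule K (MvPolynomial σ K) :=
  Submodule.span K {f | ∃ (μ : σ →₀ ℕ) (k : κ), μ.degree = d ∧ f = monomial μ 1 * g k}

/-- multiples of degree at most `l` of the products over the blocks -/
noncomputable def Vl {σ κ : Type*} (B E : Type*) [Fintype B] (g : κ → MvPolynomial σ K) (l : ℕ) :
    Submodule K (MvPolynomial ((B × σ) ⊕ E) K) :=
  Submodule.span K {f | ∃ (μ : ((B × σ) ⊕ E) →₀ ℕ) (k : B → κ), μ.degree ≤ l ∧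
    f = monomial μ 1 * ∏ b, rename (fun v => Sum.inl (b, v)) (g (k b))}

end Pool.SDL
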