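import Pool.Agent.Helper41.SDet.Red
import Mathlib.Combinatorics.Nullstellensatz

/-! # Degrees of determinants with coefficient matrices of small rank; identities on small grids -/

open MvPolynomial Finset
open scoped BigOperators

namespace Pool.SDL

variable {K : Type*} [Field K]

theorem degreeOf_det_le {P : Type*} {ι : Type*} [Fintype ι] [DecidableEq ι] (e : P)
    (M : Matrix ι ι (MvPolynomial P K)) (w : ι → ℕ) (hw : ∀ i j, (M i j).degreeOf e ≤ w i) :
    M.det.degreeOf e ≤ ∑ i, w i := by
  classical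
  rw [Matrix.det_apply']
  refine (degreeOf_sum_le _ _ _).trans (Finset.sup_le fun τ _ => ?_)
  refine (degreeOf_mul_le _ _ _).trans ?_
  have h1 : ((Equiv.Perm.sign τ : ℤ) : MvPolynomial P K).degreeOf e = 0 := by
    have : ((Equiv.Perm.sign τ : ℤ) : MvPolynomial P K) = C ((Equiv.Perm.sign τ : ℤ) : K) := by simp
    rw [this, degreeOf_C]
  rw [h1, zero_add]
  refine (degreeOf_prod_le _ _ _).trans ?_
  calc ∑ i, (M (τ i) i).degreeOf e ≤ ∑ i, w (τ i) := Finset.sum_le_sum fun i _ => hw _ _
    _ = ∑ i, w i := Equiv.sum_comp τ w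

/-- G1: the degree in one variable is at most the rank of its coefficient matrix -/
theorem degreeOf_det_rank {P : Type*} [Fintype P] {m : ℕ} (A0 : Matrix (Fin m) (Fin m) K)
    (B : P → Matrix (Fin m) (Fin m) K) (e0 : P) :
    (A0.map (C : K → MvPolynomial P K) +
      ∑ e, (X e : MvPolynomial P K) • (B e).map (C : K → MvPolynomial P K)).det.degreeOf e0 ≤
      (B e0).rank := by
  classical
  obtain ⟨U, V, hUV⟩ := Pool.Agent.Helper41.SD.rank_factor (B e0) (le_refl (B e0).rank)
  set φ : K →+* MvPolynomial P K := C with hφ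
  set Nn : Matrix (Fin m) (Fin m) (MvPolynomial P K) :=
    A0.map φ + ∑ e ∈ univ.erase e0, (X e : MvPolynomial P K) • (B e).map φ with hN
  have h1 : A0.map φ + ∑ e, (X e : MvPolynomial P K) • (B e).map φ =
      Nn - (-(U.map φ)) * ((X e0 : MvPolynomial P K) • V.map φ) := by
    rw [Matrix.neg_mul, sub_neg_eq_add, hN, ← Finset.add_sum_erase _ _ (Finset.mem_univ e0),
      Matrix.mul_smul, ← Matrix.map_mul, ← hUV]
    abel
  change (A0.map φ + ∑ e, (X e : MvPolynomial P K) • (B e).map φ).det.degreeOf e0 ≤ _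
  rw [h1, ← Matrix.det_fromBlocks_one₂₂]
  refine (degreeOf_det_le e0 _ (Sum.elim (fun _ => 0) (fun _ => 1)) ?_).trans (by simp)
  rintro (i | i) (j | j)
  · simp only [Matrix.fromBlocks_apply₁₁, Sum.elim_inl, hN, Matrix.add_apply, Matrix.sum_apply,
      Matrix.smul_apply, Matrix.map_apply, smul_eq_mul]
    refine (degreeOf_add_le _ _ _).trans (max_le ?_ ?_)
    · rw [hφ, degreeOf_C]
    · refine (degreeOf_sum_le _ _ _).trans (Finset.sup_le fun e he => ?_)
      refine (degreeOf_mul_le _ _ _).trans ?_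
      rw [hφ, degreeOf_C, degreeOf_X_of_ne (Ne.symm (Finset.ne_of_mem_erase he))]
  · simp only [Matrix.fromBlocks_apply₁₂, Sum.elim_inl, Matrix.neg_apply, Matrix.map_apply]
    rw [hφ, ← map_neg, degreeOf_C]
  · simp only [Matrix.fromBlocks_apply₂₁, Sum.elim_inr, Matrix.smul_apply, Matrix.map_apply,
      smul_eq_mul]
    refine (degreeOf_mul_le _ _ _).trans ?_
    rw [hφ, degreeOf_C, degreeOf_X_self]
  · simp only [Matrix.fromBlocks_apply₂₂, Sum.elim_inr]
    rw [Matrix.one_apply]
    split_ifs
    · rw [degreeOf_one]; omega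
    · rw [degreeOf_zero]; omega

/-- G2: polynomials with degree at most `d` in every variable which agree on `{0, ..., d} ^ P`
are equal -/
theorem grid [CharZero K] {P : Type*} [Fintype P] {d : ℕ} (p q : MvPolynomial P K)
    (hp : ∀ e, p.degreeOf e ≤ d) (hq : ∀ e, q.degreeOf e ≤ d)
    (h : ∀ v : P → ℕ, (∀ e, v e ≤ d) → eval (fun e => (v e : K)) p = eval (fun e => (v e : K)) q) :
    p = q := by
  classical
  rw [← sub_eq_zero]
  apply eq_zero_of_eval_zero_at_prod_finset _
    (fun _ => (Finset.range (d + 1)).map ⟨fun x : ℕ => (x : K), Nat.cast_injective⟩)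
  · intro e
    rw [Finset.card_map, Finset.card_range]
    refine Nat.lt_succ_of_le ?_
    rw [sub_eq_add_neg]
    refine (degreeOf_add_le _ _ _).trans (max_le (hp e) ?_)
    have h1 : (-q) = C (-1 : K) * q := by simp
    rw [h1]
    exact (degreeOf_C_mul_le _ _ _).trans (hq e)
  · intro x hx
    have hx' : ∀ v, ∃ k : ℕ, k ≤ d ∧ (k : K) = x v := by
      intro v
      have := hx v
      simp only [Finset.mem_map, Finset.mem_range, Function.Embedding.coeFn_mk] at this
      obtain ⟨k, hk, e⟩ := this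
      exact ⟨k, by omega, e⟩
    choose k hk hkx using hx'
    have e1 : (fun e => (k e : K)) = x := funext hkx
    have h1 := h k hk
    rw [e1] at h1
    rw [map_sub, h1, sub_self]

end Pool.SDL
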