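import Pool.Agent.Helper55.SD.Two

/-! # the span of the block subpermanents -/

open Finset
open scoped BigOperators Nat

set_option linter.unusedSectionVars false

namespace Pool.SDL

universe u
variable (K : Type u) [Field K]

/-- entries of the first type of columns -/
noncomputable def eA (N a : ℕ) : (Fin N ⊕ Fin (a + 1)) → MvPolynomial (Option (Fin N)) K
  | Sum.inl j => MvPolynomial.X (some j)
  | Sum.inr _ => MvPolynomial.X none

/-- entries of the second type of columns -/
noncomputable def eB (N a : ℕ) : (Fin N ⊕ Fin (a + 1)) → MvPolynomial (Option (Fin N)) K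
  | Sum.inl _ => MvPolynomial.X none
  | Sum.inr k => MvPolynomial.C (-(k : ℕ) : K) * MvPolynomial.X none

theorem tall_eq (N a : ℕ) (i : Fin N ⊕ Fin (a + 1)) (j : Fin N ⊕ Fin a) :
    tall K N a i j = Sum.elim (fun _ => eA K N a i) (fun _ => eB K N a i) j := by
  rcases i with i | i <;> rcases j with j | j <;> rfl

/-- the polynomial prod (u_j z + h) -/
noncomputable def G (N : ℕ) : Polynomial (MvPolynomial (Option (Fin N)) K) :=
  ∏ j : Fin N, (Polynomial.C (MvPolynomial.X (some j)) * Polynomial.X +
    Polynomial.C (MvPolynomial.X none))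

theorem bp_eq (N a : ℕ) (k : Fin (a + 1)) :
    bp K N a k = ((N)! * (a)! : ℕ) •
      (G K N * (Polynomial.C (MvPolynomial.X none) ^ a *
        ∏ l ∈ univ.erase k, (Polynomial.X - Polynomial.C (MvPolynomial.C (l : K))))).coeff N := by
  have h1 : bp K N a k = rper (fun (i : {i : Fin N ⊕ Fin (a + 1) // i ≠ Sum.inr k})
      (j : Fin N ⊕ Fin a) =>
      Sum.elim (fun _ => eA K N a i.1) (fun _ => eB K N a i.1) j) := by
    unfold bp
    congr 1
    funext i j
    exact tall_eq K N a i.1 j
  rw [h1, two_types]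
  · simp only [Fintype.card_fin]
    congr 2
    have h2 : (∏ i : {i : Fin N ⊕ Fin (a + 1) // i ≠ Sum.inr k},
        (Polynomial.C (eA K N a i.1) * Polynomial.X + Polynomial.C (eB K N a i.1))) =
        ∏ i ∈ (univ : Finset (Fin N ⊕ Fin (a + 1))).erase (Sum.inr k),
        (Polynomial.C (eA K N a i) * Polynomial.X + Polynomial.C (eB K N a i)) := by
      rw [← Finset.prod_subtype ((univ : Finset (Fin N ⊕ Fin (a + 1))).erase (Sum.inr k))
        (by intro x; simp) (fun i => (Polynomial.C (eA K N a i) * Polynomial.X +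
          Polynomial.C (eB K N a i)))]
    have h3 : (univ : Finset (Fin N ⊕ Fin (a + 1))).erase (Sum.inr k) =
        (univ : Finset (Fin N)).disjSum ((univ : Finset (Fin (a + 1))).erase k) := by
      ext i
      rcases i with i | i <;> simp
    rw [h2, h3, prod_disjSum]
    congr 1
    have h4 : (Polynomial.C (MvPolynomial.X none : MvPolynomial (Option (Fin N)) K)) ^ a =
        ∏ _l ∈ (univ : Finset (Fin (a + 1))).erase k, Polynomial.C (MvPolynomial.X none) := by
      rw [prod_const, card_erase_of_mem (mem_univ k)]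
      simp
    rw [h4, ← prod_mul_distrib]
    apply prod_congr rfl
    intro l _
    simp only [eA, eB, map_mul, map_neg]
    simp only [map_natCast]
    ring
  · rw [Fintype.card_subtype_compl]
    simp

theorem G_coeff (N r : ℕ) (hr : r ≤ N) :
    (G K N).coeff (N - r) =
      MvPolynomial.X none ^ r * MvPolynomial.rename some (MvPolynomial.esymm (Fin N) K (N - r)) := by
  classical
  unfold G
  rw [prod_add, Polynomial.finsetSum_coeff]
  have h1 : ∀ S ∈ (univ : Finset (Fin N)).powerset,
      ((∏ i ∈ S, (Polynomial.C (MvPolynomial.X (some i) : MvPolynomial (Option (Fin N)) K) *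
        Polynomial.X)) * ∏ _i ∈ univ \ S, Polynomial.C (MvPolynomial.X none)).coeff (N - r) =
      if S.card = N - r then (∏ i ∈ S, (MvPolynomial.X (some i) :
        MvPolynomial (Option (Fin N)) K)) * MvPolynomial.X none ^ r else 0 := by
    intro S _
    rw [prod_mul_distrib, prod_const, ← map_prod, ← map_prod, mul_right_comm, ← Polynomial.C_mul,
      Polynomial.coeff_C_mul_X_pow, prod_const]
    by_cases hS : S.card = N - r
    · rw [if_pos hS, if_pos hS.symm, card_sdiff_of_subset (subset_univ S), hS]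
      simp only [card_univ, Fintype.card_fin]
      congr 2
      omega
    · rw [if_neg hS, if_neg (fun h => hS h.symm)]
  rw [sum_congr rfl h1, ← sum_filter]
  rw [MvPolynomial.esymm, map_sum, mul_sum]
  have h2 : ((univ : Finset (Fin N)).powerset.filter (fun S => S.card = N - r)) =
      powersetCard (N - r) univ := by
    ext S
    simp [mem_powersetCard]
  rw [h2]
  apply sum_congr rfl
  intro S _
  rw [map_prod, mul_comm]
  congr 1
  apply prod_congr rfl
  intro i _
  simp

theorem span_all [CharZero K] (N a : ℕ) (f : Polynomial K) (hf : f.degree < (a + 1 : ℕ)) :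
    (G K N * (Polynomial.C (MvPolynomial.X none) ^ a *
      f.map (MvPolynomial.C (σ := Option (Fin N))))).coeff N ∈
      Submodule.span K (Set.range (bp K N a)) := by
  have hinj : Set.InjOn (fun l : Fin (a + 1) => ((l : ℕ) : K)) (univ : Finset (Fin (a + 1))) := by
    intro x _ y _ h
    have h' : ((x : ℕ) : K) = ((y : ℕ) : K) := h
    exact Fin.ext (Nat.cast_injective h')
  have h1 := Lagrange.eq_interpolate (s := univ) (v := fun l : Fin (a + 1) => ((l : ℕ) : K))
    hinj (f := f) (by simpa using hf)
  rw [h1, Lagrange.interpolate_apply, Polynomial.map_sum, mul_sum, mul_sum,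
    Polynomial.finsetSum_coeff]
  apply Submodule.sum_mem
  intro k _
  have h2 : (Lagrange.basis univ (fun l : Fin (a + 1) => ((l : ℕ) : K)) k) =
      Polynomial.C (∏ l ∈ univ.erase k, (((k : ℕ) : K) - ((l : ℕ) : K))⁻¹) *
        ∏ l ∈ univ.erase k, (Polynomial.X - Polynomial.C ((l : ℕ) : K)) := by
    rw [Lagrange.basis, map_prod, ← prod_mul_distrib]
    apply prod_congr rfl
    intro l _
    rfl
  have hne : ((N)! * (a)! : ℕ) ≠ 0 := mul_ne_zero (Nat.factorial_ne_zero _)
    (Nat.factorial_ne_zero _)
  have hne' : (((N)! * (a)! : ℕ) : K) ≠ 0 := Nat.cast_ne_zero.2 hne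
  set c : K := f.eval ((k : ℕ) : K) * (∏ l ∈ univ.erase k, (((k : ℕ) : K) - ((l : ℕ) : K))⁻¹) *
    ((((N)! * (a)! : ℕ) : K))⁻¹ with hc
  have h3 : (G K N * (Polynomial.C (MvPolynomial.X none) ^ a *
      (Polynomial.C (Polynomial.eval (((k : ℕ) : K)) f) *
        Lagrange.basis univ (fun l : Fin (a + 1) => ((l : ℕ) : K)) k).map
          (MvPolynomial.C (σ := Option (Fin N))))).coeff N = c • bp K N a k := by
    rw [bp_eq, h2]
    have h4 : (Polynomial.C (Polynomial.eval (((k : ℕ) : K)) f) *
        (Polynomial.C (∏ l ∈ univ.erase k, (((k : ℕ) : K) - ((l : ℕ) : K))⁻¹) *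
        ∏ l ∈ univ.erase k, (Polynomial.X - Polynomial.C ((l : ℕ) : K)))).map
          (MvPolynomial.C (σ := Option (Fin N))) =
        Polynomial.C (MvPolynomial.C (f.eval ((k : ℕ) : K) *
          (∏ l ∈ univ.erase k, (((k : ℕ) : K) - ((l : ℕ) : K))⁻¹))) *
        ∏ l ∈ univ.erase k, (Polynomial.X - Polynomial.C (MvPolynomial.C (l : K))) := by
      rw [Polynomial.map_mul, Polynomial.map_mul, Polynomial.map_C, Polynomial.map_C,
        Polynomial.map_prod, ← mul_assoc, ← Polynomial.C_mul, ← map_mul]
      congr 1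
      apply prod_congr rfl
      intro l _
      simp
    rw [h4]
    have h5 : G K N * (Polynomial.C (MvPolynomial.X none) ^ a *
        (Polynomial.C (MvPolynomial.C (f.eval ((k : ℕ) : K) *
          (∏ l ∈ univ.erase k, (((k : ℕ) : K) - ((l : ℕ) : K))⁻¹))) *
        ∏ l ∈ univ.erase k, (Polynomial.X - Polynomial.C (MvPolynomial.C (l : K))))) =
        Polynomial.C (MvPolynomial.C (f.eval ((k : ℕ) : K) *
          (∏ l ∈ univ.erase k, (((k : ℕ) : K) - ((l : ℕ) : K))⁻¹))) *
        (G K N * (Polynomial.C (MvPolynomial.X none) ^ a *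
          ∏ l ∈ univ.erase k, (Polynomial.X - Polynomial.C (MvPolynomial.C (l : K))))) := by
      ring
    rw [h5, Polynomial.coeff_C_mul, ← Nat.cast_smul_eq_nsmul K, smul_smul,
      MvPolynomial.C_mul']
    congr 1
    rw [hc, mul_assoc, inv_mul_cancel₀ hne', mul_one]
  rw [h3]
  exact Submodule.smul_mem _ _ (Submodule.subset_span ⟨k, rfl⟩)

theorem LA [CharZero K] (N a : ℕ) (haN : a < N) (r : ℕ) (hr : r ≤ a) :
    MvPolynomial.X none ^ (a + r) *
      MvPolynomial.rename some (MvPolynomial.esymm (Fin N) K (N - r)) ∈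
      Submodule.span K (Set.range (bp K N a)) := by
  have h := span_all K N a (Polynomial.X ^ r) (by
    rw [Polynomial.degree_X_pow]
    exact_mod_cast Nat.lt_succ_of_le hr)
  have h2 : (G K N * (Polynomial.C (MvPolynomial.X none) ^ a *
      (Polynomial.X ^ r : Polynomial K).map (MvPolynomial.C (σ := Option (Fin N))))).coeff N =
      MvPolynomial.X none ^ (a + r) *
      MvPolynomial.rename some (MvPolynomial.esymm (Fin N) K (N - r)) := by
    rw [Polynomial.map_pow, Polynomial.map_X, ← mul_assoc, mul_comm (G K N), mul_assoc,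
      ← Polynomial.C_pow, Polynomial.coeff_C_mul, Polynomial.coeff_mul_X_pow',
      if_pos (by omega), G_coeff K N r (by omega), ← mul_assoc, ← pow_add]
  rw [← h2]
  exact h

theorem tall_homog (N a : ℕ) (i : Fin N ⊕ Fin (a + 1)) (j : Fin N ⊕ Fin a) :
    (tall K N a i j).IsHomogeneous 1 := by
  rcases i with i | i <;> rcases j with j | j
  · exact MvPolynomial.isHomogeneous_X K _
  · exact MvPolynomial.isHomogeneous_X K _
  · exact MvPolynomial.isHomogeneous_X K _
  · have h := (MvPolynomial.isHomogeneous_C (Option (Fin N)) (-(i : ℕ) : K)).mul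
      (MvPolynomial.isHomogeneous_X K (none : Option (Fin N)))
    rw [zero_add] at h
    exact h

theorem bp_homog (N a : ℕ) (k : Fin (a + 1)) : (bp K N a k).IsHomogeneous (N + a) := by
  unfold bp rper
  apply MvPolynomial.IsHomogeneous.sum
  intro e _
  have h := MvPolynomial.IsHomogeneous.prod (univ : Finset {i : Fin N ⊕ Fin (a + 1) //
    i ≠ Sum.inr k}) (fun i => tall K N a i.1 (e i)) (fun _ => 1)
    (fun i _ => tall_homog K N a i.1 (e i))
  have h2 : ∑ _i : {i : Fin N ⊕ Fin (a + 1) // i ≠ Sum.inr k}, 1 = N + a := by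
    rw [sum_const, card_univ, Fintype.card_subtype_compl]
    simp
  rw [h2] at h
  exact h

end Pool.SDL
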