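import Pool.Agent.Helper55.SD.RODefs
import Pool.Agent.Helper55.SD.SideL

/-! # RO4: side (L) for blocks with h = 1 -/

open MvPolynomial Finset
open scoped BigOperators ENNReal

set_option linter.unusedSectionVars false

namespace Pool.SDL

/-- `h := 1` -/
noncomputable def hOne (K : Type) [Field K] (N : ℕ) :
    MvPolynomial (Option (Fin N)) K →ₐ[K] MvPolynomial (Option (Fin N)) K :=
  aeval (fun v : Option (Fin N) => v.elim (1 : MvPolynomial (Option (Fin N)) K)
      (fun j => X (some j)))

theorem hOne_rename_some (K : Type) [Field K] (N : ℕ) (p : MvPolynomial (Fin N) K) :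
    hOne K N (rename some p) = rename some p := by
  have h : (hOne K N).comp (rename some) = rename some := by
    apply MvPolynomial.algHom_ext
    intro j
    rw [AlgHom.comp_apply, rename_X, hOne, aeval_X]
    rfl
  exact congrArg (fun φ => φ p) h

theorem esymm_mem_span (K : Type) [Field K] [CharZero K] (N a : ℕ) (haN : a < N) (r : ℕ)
    (hr : r ≤ a) : rename some (esymm (Fin N) K (N - r)) ∈
      Submodule.span K (Set.range (fun k => hOne K N (bp K N a k))) := by
  have h1 := Submodule.mem_map_of_mem (f := (hOne K N).toLinearMap) (LA K N a haN r hr)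
  rw [Submodule.map_span, ← Set.range_comp] at h1
  have h2 : (hOne K N).toLinearMap (X none ^ (a + r) *
      rename some (esymm (Fin N) K (N - r))) = rename some (esymm (Fin N) K (N - r)) := by
    rw [AlgHom.toLinearMap_apply, map_mul, map_pow, hOne_rename_some]
    have h3 : hOne K N (X none) = 1 := by
      rw [hOne, aeval_X]; rfl
    rw [h3, one_pow, one_mul]
  rw [h2] at h1
  exact h1

/-- generators of equal degree: `h^r e_(N-r)` -/
noncomputable def gs (K : Type) [Field K] (N a : ℕ) (r : Fin (a + 1)) :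
    MvPolynomial (Option (Fin N)) K :=
  X none ^ (r : ℕ) * rename some (esymm (Fin N) K (N - r))

theorem gs_homog (K : Type) [Field K] (N a : ℕ) (haN : a < N) (r : Fin (a + 1)) :
    (gs K N a r).IsHomogeneous N := by
  have h1 : (X none ^ (r : ℕ) : MvPolynomial (Option (Fin N)) K).IsHomogeneous (r : ℕ) := by
    have := (isHomogeneous_X K (none : Option (Fin N))).pow (r : ℕ)
    simpa using this
  have h2 : (rename some (esymm (Fin N) K (N - r)) :
      MvPolynomial (Option (Fin N)) K).IsHomogeneous (N - r) :=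
    (SDet.esymm_homog K N (N - r)).rename_isHomogeneous
  have h3 := h1.mul h2
  have h4 : (r : ℕ) + (N - r) = N := by have := r.2; omega
  rw [h4] at h3
  exact h3

theorem LJ_le_gs (K : Type) [Field K] (N a : ℕ) (haN : a < N) (d : ℕ) :
    (LJ K N a (d + (N - a))).map (LinearMap.mulLeft K (X none ^ a)) ≤ Id (gs K N a) d := by
  rw [LJ, Submodule.map_span, Submodule.span_le]
  rintro _ ⟨f, ⟨μ, r, hr, hμ, rfl⟩, rfl⟩
  rw [LinearMap.mulLeft_apply]
  have h1 : X none ^ a * (monomial μ 1 * rename some (esymm (Fin N) K (N - r))) =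
      monomial (Finsupp.single none (a - r) + μ) 1 * gs K N a ⟨r, by omega⟩ := by
    have h2 : a = (a - r) + r := by omega
    have h3 : (monomial (Finsupp.single none (a - r) + μ) (1 : K)) =
        monomial (Finsupp.single none (a - r)) 1 * monomial μ 1 := by
      rw [monomial_mul, one_mul]
    rw [h3, ← X_pow_eq_monomial, gs]
    calc _ = X none ^ ((a - r) + r) * (monomial μ 1 *
          rename some (esymm (Fin N) K (N - r))) := by rw [← h2]
      _ = _ := by
        rw [pow_add]
        ring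
  rw [h1]
  apply Submodule.subset_span
  refine ⟨_, _, ?_, rfl⟩
  rw [map_add, Finsupp.degree_single]
  omega

theorem finrank_LJ_le_gs (K : Type) [Field K] (N a : ℕ) (haN : a < N) (d : ℕ) :
    Module.finrank K (LJ K N a (d + (N - a))) ≤ Module.finrank K (Id (gs K N a) d) := by
  have hinj : Function.Injective (LinearMap.mulLeft K
      (X none ^ a : MvPolynomial (Option (Fin N)) K)) := by
    intro x y h
    rw [LinearMap.mulLeft_apply, LinearMap.mulLeft_apply] at h
    exact mul_left_cancel₀ (pow_ne_zero _ (X_ne_zero none)) h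
  rw [(Submodule.equivMapOfInjective _ hinj (LJ K N a (d + (N - a)))).finrank_eq]
  have := finite_Id K (gs K N a) d
  exact Submodule.finrank_mono (LJ_le_gs K N a haN d)

theorem block_gs_of_LJ (K : Type) [Field K] (N a : ℕ) (haN : a < N) (Q : ℝ≥0∞) :
    ∑' e, Q ^ e * (Module.finrank K (LJ K N a e) : ℝ≥0∞) ≤
      Q ^ (N - a) * ∑' d, Q ^ d * (Module.finrank K (Id (gs K N a) d) : ℝ≥0∞) := by
  have h1 : ∑' e, Q ^ e * (Module.finrank K (LJ K N a e) : ℝ≥0∞) =
      ∑' d, Q ^ (d + (N - a)) * (Module.finrank K (LJ K N a (d + (N - a))) : ℝ≥0∞) := by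
    rw [← Function.Injective.tsum_eq (g := fun d : ℕ => d + (N - a))
      (fun x y h => by simpa using h)]
    intro e he
    rw [Function.mem_support] at he
    by_contra hn
    apply he
    have : e < N - a := by
      by_contra h2
      exact hn ⟨e - (N - a), by dsimp only; omega⟩
    rw [LJ_bot K N a e this]
    simp
  rw [h1, ← ENNReal.tsum_mul_left]
  apply ENNReal.tsum_le_tsum
  intro d
  rw [pow_add, mul_comm (Q ^ d) (Q ^ (N - a)), mul_assoc]
  gcongr
  exact_mod_cast finrank_LJ_le_gs K N a haN d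

theorem block_gs (K : Type) [Field K] (N a : ℕ) (haN : a < N) (Q : ℝ≥0∞) (hQ : Q < 1) :
    1 - (1 - Q ^ N) ^ (a + 1) ≤
      Q ^ (N - a) * (1 - Q) ^ (N + 1) *
        ∑' d, Q ^ d * (Module.finrank K (Id (gs K N a) d) : ℝ≥0∞) := by
  refine (SDet.LJ_series' K N a haN Q hQ).trans ?_
  rw [mul_comm (Q ^ (N - a)), mul_assoc]
  gcongr
  exact block_gs_of_LJ K N a haN Q

theorem sideL_gs (K : Type) [Field K] (B : Type) (E : Type) [Fintype B] [Fintype E]
    (N a : ℕ) (haN : a < N) (Q : ℝ≥0∞) (hQ : Q < 1) :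
    (1 - (1 - Q ^ N) ^ (a + 1)) ^ Fintype.card B ≤
      Q ^ ((N - a) * Fintype.card B) *
        ((1 - Q) ^ (Fintype.card ((B × Option (Fin N)) ⊕ E) + 1) *
          ∑' l, Q ^ l * (Module.finrank K (Vl B E (gs K N a) l) : ℝ≥0∞)) := by
  have h1 := block_gs K N a haN Q hQ
  have h2 := M9 (K := K) B E (gs K N a) N (gs_homog K N a haN) Q hQ
  calc (1 - (1 - Q ^ N) ^ (a + 1)) ^ Fintype.card B
      ≤ (Q ^ (N - a) * (1 - Q) ^ (N + 1) *
        ∑' d, Q ^ d * (Module.finrank K (Id (gs K N a) d) : ℝ≥0∞)) ^ Fintype.card B := by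
        gcongr
    _ = Q ^ ((N - a) * Fintype.card B) * (1 - Q) ^ ((N + 1) * Fintype.card B) *
        (∑' d, Q ^ d * (Module.finrank K (Id (gs K N a) d) : ℝ≥0∞)) ^ Fintype.card B := by
        rw [mul_pow, mul_pow, ← pow_mul, ← pow_mul]
    _ ≤ Q ^ ((N - a) * Fintype.card B) * (1 - Q) ^ ((N + 1) * Fintype.card B) *
        ((1 - Q) ^ (Fintype.card E + 1) *
        ∑' l, Q ^ l * (Module.finrank K (Vl B E (gs K N a) l) : ℝ≥0∞)) := by
        gcongr
    _ = _ := by
        rw [mul_assoc, ← mul_assoc ((1 - Q) ^ ((N + 1) * Fintype.card B)), ← pow_add]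
        congr 3
        simp [Fintype.card_sum, Fintype.card_prod]
        ring

/-- exponent vectors of bounded degree form a finite set -/
theorem finite_deg_le (σ : Type) [Fintype σ] (l : ℕ) :
    Set.Finite {μ : σ →₀ ℕ | μ.degree ≤ l} := by
  classical
  have h : {μ : σ →₀ ℕ | μ.degree ≤ l} ⊆
      Set.range (fun f : σ → Fin (l + 1) => Finsupp.equivFunOnFinite.symm fun i => (f i : ℕ)) := by
    intro μ hμ
    have hi : ∀ i, μ i < l + 1 := by
      intro i
      have h1 : μ i ≤ μ.degree := Finsupp.le_degree i μ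
      have h2 : μ.degree ≤ l := hμ
      omega
    refine ⟨fun i => ⟨μ i, hi i⟩, ?_⟩
    ext i
    simp
  exact (Set.finite_range _).subset h

theorem finite_Vl (K : Type) [Field K] {σ κ : Type} [Fintype σ] [Finite κ] (B E : Type)
    [Fintype B] [Fintype E] (g : κ → MvPolynomial σ K) (l : ℕ) :
    Module.Finite K (Vl B E g l) := by
  unfold Vl
  apply Module.Finite.span_of_finite
  have h1 := finite_deg_le ((B × σ) ⊕ E) l
  have h2 := ((h1.prod (Set.finite_univ : (Set.univ : Set (B → κ)).Finite)).image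
    (fun x => monomial x.1 (1:K) * ∏ b, rename (fun v => (Sum.inl (b, v) : (B × σ) ⊕ E))
      (g (x.2 b))))
  apply h2.subset
  rintro f ⟨μ, k, hμ, rfl⟩
  exact ⟨(μ, k), ⟨hμ, Set.mem_univ _⟩, rfl⟩

/-- products of elements of the span of `g` are in the span of the products -/
theorem prod_mem_span (K : Type) [Field K] {σ κ : Type} (B E : Type) [Fintype B]
    (g : κ → MvPolynomial σ K) (x : B → MvPolynomial σ K)
    (hx : ∀ b, x b ∈ Submodule.span K (Set.range g)) :
    (∏ b, rename (fun v => (Sum.inl (b, v) : (B × σ) ⊕ E)) (x b)) ∈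
      Submodule.span K (Set.range fun k : B → κ =>
        ∏ b, rename (fun v => (Sum.inl (b, v) : (B × σ) ⊕ E)) (g (k b))) := by
  classical
  have h1 : ∀ b, rename (fun v => (Sum.inl (b, v) : (B × σ) ⊕ E)) (x b) ∈
      Submodule.span K (Set.range fun k => rename (fun v => (Sum.inl (b, v) : (B × σ) ⊕ E))
        (g k)) := by
    intro b
    have := Submodule.mem_map_of_mem (f := (rename (fun v => (Sum.inl (b, v) : (B × σ) ⊕ E)) :
      MvPolynomial σ K →ₐ[K] _).toLinearMap) (hx b)
    rw [Submodule.map_span, ← Set.range_comp] at this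
    exact this
  have h2 := Pool.Agent.Helper72.SDet.prod_mem_prod' (K := K) (univ : Finset B)
    (fun b => Submodule.span K (Set.range fun k => rename (fun v =>
      (Sum.inl (b, v) : (B × σ) ⊕ E)) (g k))) _ (fun b _ => h1 b)
  rw [Submodule.prod_span] at h2
  refine (Submodule.span_mono ?_) h2
  intro y hy
  rw [Set.mem_fintype_prod] at hy
  obtain ⟨p, hp, rfl⟩ := hy
  choose k hk using hp
  exact ⟨k, Finset.prod_congr rfl fun b _ => hk b⟩

theorem Vl_gs_le (K : Type) [Field K] (N a : ℕ) (B E : Type) [Fintype B] [Fintype E]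
    (g : Fin (a + 1) → MvPolynomial (Option (Fin N)) K)
    (hg : ∀ r, r ≤ a → rename some (esymm (Fin N) K (N - r)) ∈
      Submodule.span K (Set.range g)) (l : ℕ) :
    Vl B E (gs K N a) l ≤ Vl B E g (l + a * Fintype.card B) := by
  classical
  rw [Vl, Submodule.span_le]
  rintro f ⟨μ, k, hμ, rfl⟩
  have h1 : (∏ b, rename (fun v => (Sum.inl (b, v) : (B × Option (Fin N)) ⊕ E))
      (gs K N a (k b))) =
      monomial (∑ b, Finsupp.single (Sum.inl (b, none) : (B × Option (Fin N)) ⊕ E)
        ((k b : ℕ))) 1 *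
      ∏ b, rename (fun v => (Sum.inl (b, v) : (B × Option (Fin N)) ⊕ E))
        (rename some (esymm (Fin N) K (N - k b))) := by
    rw [monomial_sum_one, ← Finset.prod_mul_distrib]
    apply Finset.prod_congr rfl
    intro b _
    rw [gs, map_mul, map_pow, rename_X, X_pow_eq_monomial]
  rw [h1, ← mul_assoc, monomial_mul, one_mul]
  set ν := μ + ∑ b, Finsupp.single (Sum.inl (b, none) : (B × Option (Fin N)) ⊕ E)
        ((k b : ℕ)) with hν
  have hdeg : ν.degree ≤ l + a * Fintype.card B := by
    rw [hν, map_add, map_sum]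
    have h2 : ∑ b : B, (Finsupp.single (Sum.inl (b, none) : (B × Option (Fin N)) ⊕ E)
        ((k b : ℕ))).degree ≤ ∑ _b : B, a := by
      apply Finset.sum_le_sum
      intro b _
      rw [Finsupp.degree_single]
      have := (k b).2
      omega
    have h3 : ∑ _b : B, a = a * Fintype.card B := by
      rw [Finset.sum_const, Finset.card_univ, smul_eq_mul, mul_comm]
    omega
  have h4 := prod_mem_span K B E g (fun b => rename some (esymm (Fin N) K (N - k b)))
    (fun b => hg _ (by have := (k b).2; omega))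
  have h5 := Submodule.mem_map_of_mem (f := LinearMap.mulLeft K (monomial ν (1 : K))) h4
  rw [Submodule.map_span, ← Set.range_comp, LinearMap.mulLeft_apply] at h5
  refine (Submodule.span_mono ?_) h5
  rintro _ ⟨kk, rfl⟩
  exact ⟨ν, kk, hdeg, rfl⟩

/-- side (L) for any generators whose span contains the `e_(N-r)` -/
theorem sideL_gen (K : Type) [Field K] (B : Type) (E : Type) [Fintype B] [Fintype E]
    (N a : ℕ) (haN : a < N) (g : Fin (a + 1) → MvPolynomial (Option (Fin N)) K)
    (hg : ∀ r, r ≤ a → rename some (esymm (Fin N) K (N - r)) ∈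
      Submodule.span K (Set.range g)) (Q : ℝ≥0∞) (hQ : Q < 1) :
    Q ^ (a * Fintype.card B) * (1 - (1 - Q ^ N) ^ (a + 1)) ^ Fintype.card B ≤
      Q ^ ((N - a) * Fintype.card B) *
        ((1 - Q) ^ (Fintype.card ((B × Option (Fin N)) ⊕ E) + 1) *
          ∑' l, Q ^ l * (Module.finrank K (Vl B E g l) : ℝ≥0∞)) := by
  have h1 := sideL_gs K B E N a haN Q hQ
  have h2 : Q ^ (a * Fintype.card B) *
      ∑' l, Q ^ l * (Module.finrank K (Vl B E (gs K N a) l) : ℝ≥0∞) ≤
      ∑' l, Q ^ l * (Module.finrank K (Vl B E g l) : ℝ≥0∞) := by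
    rw [← ENNReal.tsum_mul_left]
    have h3 : ∀ l, Q ^ (a * Fintype.card B) *
        (Q ^ l * (Module.finrank K (Vl B E (gs K N a) l) : ℝ≥0∞)) ≤
        Q ^ (l + a * Fintype.card B) *
          (Module.finrank K (Vl B E g (l + a * Fintype.card B)) : ℝ≥0∞) := by
      intro l
      rw [← mul_assoc, ← pow_add, add_comm (a * Fintype.card B) l]
      gcongr
      have := finite_Vl K B E g (l + a * Fintype.card B)
      exact Submodule.finrank_mono (Vl_gs_le K N a B E g hg l)
    refine (ENNReal.tsum_le_tsum h3).trans ?_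
    exact ENNReal.tsum_comp_le_tsum_of_injective
      (f := fun l : ℕ => l + a * Fintype.card B) (fun x y h => by simpa using h)
      (fun l => Q ^ l * (Module.finrank K (Vl B E g l) : ℝ≥0∞))
  calc Q ^ (a * Fintype.card B) * (1 - (1 - Q ^ N) ^ (a + 1)) ^ Fintype.card B
      ≤ Q ^ (a * Fintype.card B) * (Q ^ ((N - a) * Fintype.card B) *
        ((1 - Q) ^ (Fintype.card ((B × Option (Fin N)) ⊕ E) + 1) *
          ∑' l, Q ^ l * (Module.finrank K (Vl B E (gs K N a) l) : ℝ≥0∞))) := by
        gcongr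
    _ = Q ^ ((N - a) * Fintype.card B) *
        ((1 - Q) ^ (Fintype.card ((B × Option (Fin N)) ⊕ E) + 1) *
          (Q ^ (a * Fintype.card B) *
            ∑' l, Q ^ l * (Module.finrank K (Vl B E (gs K N a) l) : ℝ≥0∞))) := by
        ring
    _ ≤ _ := by
        gcongr

end Pool.SDL
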