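import Pool.Agent.Helper55.SD.RODefs
import Pool.Agent.Helper55.SD.RO4

/-! # RO2: splitting rows does not change the permanent -/

open Finset
open scoped BigOperators

set_option linter.unusedSectionVars false

namespace Pool.SDL

section split

variable {R X S J : Type*} [CommRing R] [Fintype X] [DecidableEq X] [Fintype S] [DecidableEq S]
  [Fintype J] [DecidableEq J]

/-- exchange of the two rows `j` with `b j = false` -/
def sw (b : X → Bool) : Equiv.Perm (X ⊕ (X ⊕ S)) :=
  Function.Involutive.toPerm (fun i => match i with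
    | Sum.inl j => if b j then Sum.inl j else Sum.inr (Sum.inl j)
    | Sum.inr (Sum.inl j) => if b j then Sum.inr (Sum.inl j) else Sum.inl j
    | Sum.inr (Sum.inr x) => Sum.inr (Sum.inr x)) (by
      rintro (j | j | x)
      · by_cases h : b j <;> simp [h]
      · by_cases h : b j <;> simp [h]
      · rfl)

theorem sw_inl (b : X → Bool) (j : X) : sw (S := S) b (Sum.inl j) =
    if b j then Sum.inl j else Sum.inr (Sum.inl j) := rfl

theorem sw_inr_inl (b : X → Bool) (j : X) : sw (S := S) b (Sum.inr (Sum.inl j)) =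
    if b j then Sum.inr (Sum.inl j) else Sum.inl j := rfl

theorem sw_inr_inr (b : X → Bool) (x : S) : sw (X := X) b (Sum.inr (Sum.inr x)) =
    Sum.inr (Sum.inr x) := rfl

theorem sw_symm (b : X → Bool) : (sw (S := S) b).symm = sw b := rfl

/-- a bijection which fixes the left summand -/
theorem exists_right (g : X ⊕ (X ⊕ S) ≃ X ⊕ J) (hg : ∀ x, g (Sum.inl x) = Sum.inl x) :
    ∃ e : X ⊕ S ≃ J, g = Equiv.sumCongr (Equiv.refl X) e := by
  have hr : ∀ y, (g (Sum.inr y)).isRight = true := by
    intro y
    rcases h : g (Sum.inr y) with x | c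
    · exfalso
      rw [← hg x] at h
      have := g.injective h
      simp at this
    · rfl
  have hl : ∀ c, (g.symm (Sum.inr c)).isRight = true := by
    intro c
    rcases h : g.symm (Sum.inr c) with x | y
    · exfalso
      rw [Equiv.symm_apply_eq, hg x] at h
      simp at h
    · rfl
  refine ⟨⟨fun y => (g (Sum.inr y)).getRight (hr y), fun c => (g.symm (Sum.inr c)).getRight (hl c),
    ?_, ?_⟩, ?_⟩
  · intro y
    have h1 : (Sum.inr ((g (Sum.inr y)).getRight (hr y)) : X ⊕ J) = g (Sum.inr y) :=
      Sum.inr_getRight _ _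
    apply Sum.inr_injective (α := X)
    rw [Sum.inr_getRight]
    rw [h1, Equiv.symm_apply_apply]
  · intro c
    have h1 : (Sum.inr ((g.symm (Sum.inr c)).getRight (hl c)) : X ⊕ (X ⊕ S)) =
        g.symm (Sum.inr c) := Sum.inr_getRight _ _
    apply Sum.inr_injective (α := X)
    rw [Sum.inr_getRight]
    rw [h1, Equiv.apply_symm_apply]
  · ext i
    rcases i with x | y
    · simp [hg x]
    · simp

/-- the matrix with split rows -/
def bigS (u : X → R) (α β : X → J → R) (σ : S → J → R) : (X ⊕ (X ⊕ S)) → (X ⊕ J) → R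
  | Sum.inl j, Sum.inl i => if i = j then u j else 0
  | Sum.inl j, Sum.inr c => β j c
  | Sum.inr (Sum.inl j), Sum.inl i => if i = j then 1 else 0
  | Sum.inr (Sum.inl j), Sum.inr c => α j c
  | Sum.inr (Sum.inr _), Sum.inl _ => 0
  | Sum.inr (Sum.inr x), Sum.inr c => σ x c

/-- the matrix with the rows `u_j α_j + β_j` -/
def smallS (u : X → R) (α β : X → J → R) (σ : S → J → R) : (X ⊕ S) → J → R
  | Sum.inl j, c => u j * α j c + β j c
  | Sum.inr x, c => σ x c

theorem prod_phi (u : X → R) (α β : X → J → R) (σ : S → J → R) (b : X → Bool) (e : X ⊕ S ≃ J) :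
    ∏ i, bigS u α β σ i (((sw b).trans (Equiv.sumCongr (Equiv.refl X) e)) i) =
      (∏ j, if b j then u j * α j (e (Sum.inl j)) else β j (e (Sum.inl j))) *
        ∏ x, σ x (e (Sum.inr x)) := by
  rw [Fintype.prod_sum_type, Fintype.prod_sum_type, ← mul_assoc, ← Finset.prod_mul_distrib]
  congr 1
  · apply Finset.prod_congr rfl
    intro j _
    rw [Equiv.trans_apply, Equiv.trans_apply, sw_inl, sw_inr_inl]
    by_cases h : b j
    · simp [h, bigS]
    · simp [h, bigS]

theorem rper_split (u : X → R) (α β : X → J → R) (σ : S → J → R) :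
    rper (bigS u α β σ) = rper (smallS u α β σ) := by
  classical
  have hinj : Function.Injective (fun p : (X → Bool) × (X ⊕ S ≃ J) =>
      (sw p.1).trans (Equiv.sumCongr (Equiv.refl X) p.2)) := by
    rintro ⟨b, e⟩ ⟨b', e'⟩ h
    have h' : ∀ i, ((sw b).trans (Equiv.sumCongr (Equiv.refl X) e)) i =
        ((sw b').trans (Equiv.sumCongr (Equiv.refl X) e')) i := fun i => congrArg (fun f => f i) h
    have hb : b = b' := by
      funext j
      have h1 := h' (Sum.inl j)
      rw [Equiv.trans_apply, Equiv.trans_apply, sw_inl, sw_inl] at h1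
      by_cases hj : b j <;> by_cases hj' : b' j
      · rw [hj, hj']
      · simp [hj, hj'] at h1
      · simp [hj, hj'] at h1
      · simp only [Bool.not_eq_true] at hj hj'
        rw [hj, hj']
    subst hb
    have he : e = e' := by
      ext y
      have h1 := h' ((sw b).symm (Sum.inr y))
      rw [Equiv.trans_apply, Equiv.trans_apply, Equiv.apply_symm_apply] at h1
      simpa using h1
    rw [he]
  unfold rper
  rw [← Fintype.sum_of_injective _ hinj
    (fun p : (X → Bool) × (X ⊕ S ≃ J) =>
      (∏ j, if p.1 j then u j * α j (p.2 (Sum.inl j)) else β j (p.2 (Sum.inl j))) *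
        ∏ x, σ x (p.2 (Sum.inr x))) _ ?_ ?_]
  · rw [Fintype.sum_prod_type_right]
    apply Finset.sum_congr rfl
    intro e _
    change ∑ b : X → Bool, (∏ j, if b j then u j * α j (e (Sum.inl j)) else β j (e (Sum.inl j))) *
        ∏ x, σ x (e (Sum.inr x)) = _
    rw [← Finset.sum_mul, Fintype.prod_sum_type]
    congr 1
    have h1 : ∀ j : X, smallS u α β σ (Sum.inl j) (e (Sum.inl j)) =
        ∑ c : Bool, if c then u j * α j (e (Sum.inl j)) else β j (e (Sum.inl j)) := by
      intro j
      simp [smallS]
    rw [Finset.prod_congr rfl fun j _ => h1 j, Finset.prod_univ_sum, Fintype.piFinset_univ]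
  · intro e he
    by_contra hne
    apply he
    have hcol : ∀ j, e.symm (Sum.inl j) = Sum.inl j ∨ e.symm (Sum.inl j) = Sum.inr (Sum.inl j) := by
      intro j
      have h1 : bigS u α β σ (e.symm (Sum.inl j)) (Sum.inl j) ≠ 0 := by
        intro h0
        apply hne
        apply Finset.prod_eq_zero (Finset.mem_univ (e.symm (Sum.inl j)))
        rw [Equiv.apply_symm_apply]
        exact h0
      rcases hi : e.symm (Sum.inl j) with i | i | x
      · left
        rw [hi] at h1
        simp only [bigS] at h1
        by_cases hji : j = i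
        · rw [hji]
        · rw [if_neg hji] at h1
          exact absurd rfl h1
      · right
        rw [hi] at h1
        simp only [bigS] at h1
        by_cases hji : j = i
        · rw [hji]
        · rw [if_neg hji] at h1
          exact absurd rfl h1
      · rw [hi] at h1
        simp [bigS] at h1
    let b : X → Bool := fun j => decide (e.symm (Sum.inl j) = Sum.inl j)
    have hg : ∀ j, ((sw b).symm.trans e) (Sum.inl j) = Sum.inl j := by
      intro j
      rw [Equiv.trans_apply, sw_symm, sw_inl]
      rcases hcol j with h | h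
      · have hb : b j = true := decide_eq_true h
        rw [hb, if_pos rfl]
        rw [← h]
        simp [h]
        rw [← h]
        simp
      · have hb : b j = false := decide_eq_false (by rw [h]; simp)
        rw [hb]
        rw [if_neg (by simp), ← h, Equiv.apply_symm_apply]
    obtain ⟨e', he'⟩ := exists_right ((sw b).symm.trans e) hg
    refine ⟨(b, e'), ?_⟩
    simp only
    rw [← he']
    ext i
    simp
  · rintro ⟨b, e⟩
    exact (prod_phi u α β σ b e).symm

end split

theorem rper_reindex {R I I' J : Type*} [CommRing R] [Fintype I] [DecidableEq I] [Fintype I']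
    [DecidableEq I'] [Fintype J] [DecidableEq J] (ε : I' ≃ I) (M : I → J → R) :
    rper (fun i j => M (ε i) j) = rper M := by
  unfold rper
  let F : (I' ≃ J) ≃ (I ≃ J) :=
    { toFun := fun e => ε.symm.trans e
      invFun := fun e => ε.trans e
      left_inv := fun e => by ext x; simp
      right_inv := fun e => by ext x; simp }
  refine Fintype.sum_equiv F _ _ fun e => ?_
  rw [← Equiv.prod_comp ε]
  refine Finset.prod_congr rfl fun i _ => ?_
  simp [F]

/-- the remaining rows of the sparse block -/
def eG (N a : ℕ) (k : Fin (a + 1)) : Fin N ⊕ (Fin N ⊕ {l : Fin (a + 1) // l ≠ k}) ≃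
    {i : GR N a // i ≠ Sum.inr (Sum.inr k)} where
  toFun
    | Sum.inl j => ⟨Sum.inl j, by simp⟩
    | Sum.inr (Sum.inl j) => ⟨Sum.inr (Sum.inl j), by simp⟩
    | Sum.inr (Sum.inr l) => ⟨Sum.inr (Sum.inr l.1), by simpa using l.2⟩
  invFun
    | ⟨Sum.inl j, _⟩ => Sum.inl j
    | ⟨Sum.inr (Sum.inl j), _⟩ => Sum.inr (Sum.inl j)
    | ⟨Sum.inr (Sum.inr l), h⟩ => Sum.inr (Sum.inr ⟨l, fun hl => h (by rw [hl])⟩)
  left_inv := by rintro (j | j | l) <;> rfl
  right_inv := by rintro ⟨j | j | l, h⟩ <;> rfl

/-- the remaining rows of the dense block -/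
def eD (N a : ℕ) (k : Fin (a + 1)) : Fin N ⊕ {l : Fin (a + 1) // l ≠ k} ≃
    {i : Fin N ⊕ Fin (a + 1) // i ≠ Sum.inr k} where
  toFun
    | Sum.inl j => ⟨Sum.inl j, by simp⟩
    | Sum.inr l => ⟨Sum.inr l.1, by simpa using l.2⟩
  invFun
    | ⟨Sum.inl j, _⟩ => Sum.inl j
    | ⟨Sum.inr l, h⟩ => Sum.inr ⟨l, fun hl => h (by rw [hl])⟩
  left_inv := by rintro (j | l) <;> rfl
  right_inv := by rintro ⟨j | l, h⟩ <;> rfl

theorem map_rper {R R' I J F : Type*} [CommRing R] [CommRing R'] [Fintype I] [DecidableEq I]
    [Fintype J] [DecidableEq J] [FunLike F R R'] [RingHomClass F R R'] (φ : F) (M : I → J → R) :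
    φ (rper M) = rper (fun i j => φ (M i j)) := by
  unfold rper
  rw [map_sum]
  exact Finset.sum_congr rfl fun e _ => map_prod _ _ _

/-- RO2: the sparse block has the subpermanents of the dense block with `h = 1` -/
theorem RO2 (K : Type) [Field K] (N a : ℕ) (k : Fin (a + 1)) :
    gp K N a k = hOne K N (bp K N a k) := by
  rw [gp, bp, map_rper, ← rper_reindex (eG N a k), ← rper_reindex (eD N a k)]
  have h1 : (fun (i : Fin N ⊕ (Fin N ⊕ {l : Fin (a + 1) // l ≠ k})) (j : GC N a) =>
      gad K N a (eG N a k i).1 j) =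
      bigS (fun j => MvPolynomial.X (some j))
        (fun _ c => Sum.elim (fun _ => 1) (fun _ => 0) c)
        (fun _ c => Sum.elim (fun _ => 0) (fun _ => 1) c)
        (fun l c => Sum.elim (fun _ => 1) (fun _ => MvPolynomial.C (-((l.1 : ℕ)) : K)) c) := by
    funext i j
    rcases i with i | i | i <;> rcases j with j | j | j <;> rfl
  have h2 : (fun (i : Fin N ⊕ {l : Fin (a + 1) // l ≠ k}) (j : Fin N ⊕ Fin a) =>
      hOne K N (tall K N a (eD N a k i).1 j)) =
      smallS (fun j => MvPolynomial.X (some j))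
        (fun _ c => Sum.elim (fun _ => 1) (fun _ => 0) c)
        (fun _ c => Sum.elim (fun _ => 0) (fun _ => 1) c)
        (fun l c => Sum.elim (fun _ => 1) (fun _ => MvPolynomial.C (-((l.1 : ℕ)) : K)) c) := by
    funext i j
    rcases i with i | i <;> rcases j with j | j
    · simp [eD, tall, smallS, hOne]
    · simp [eD, tall, smallS, hOne]
    · simp [eD, tall, smallS, hOne]
    · simp [eD, tall, smallS, hOne]
  rw [h1, h2, rper_split]

/-- side (L) for the sparse blocks -/
theorem RO4 (K : Type) [Field K] [CharZero K] (B : Type) (E : Type) [Fintype B] [Fintype E]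
    (N a : ℕ) (haN : a < N) (Q : ENNReal) (hQ : Q < 1) :
    Q ^ (a * Fintype.card B) * (1 - (1 - Q ^ N) ^ (a + 1)) ^ Fintype.card B ≤
      Q ^ ((N - a) * Fintype.card B) *
        ((1 - Q) ^ (Fintype.card ((B × Option (Fin N)) ⊕ E) + 1) *
          ∑' l, Q ^ l * (Module.finrank K (Vl B E (gp K N a) l) : ENNReal)) := by
  apply sideL_gen K B E N a haN (gp K N a) ?_ Q hQ
  intro r hr
  have h1 : (fun k => hOne K N (bp K N a k)) = gp K N a := by
    funext k
    exact (RO2 K N a k).symm
  rw [← h1]
  exact esymm_mem_span K N a haN r hr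

end Pool.SDL
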