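import Pool.Agent.SDet.Func
import Pool.Agent.Helper55.SD.RO2
import Pool.Agent.Helper41.SDet.RO3
import Pool.Agent.Helper41.SDet.Red
import Pool.Agent.Helper90.SD.RO5

/-! # RO: assembly -/

open MvPolynomial Finset
open scoped BigOperators ENNReal

namespace Pool.SDL

variable {K : Type} [Field K]

/-- the matrix with coefficient matrices `B e` as a matrix of polynomials -/
noncomputable def linM {P : Type} [Fintype P] {m : ℕ} (A0 : Matrix (Fin m) (Fin m) K)
    (B : P → Matrix (Fin m) (Fin m) K) : Matrix (Fin m) (Fin m) (MvPolynomial P K) :=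
  A0.map C + ∑ e, (X e : MvPolynomial P K) • (B e).map C

theorem linM_apply {P : Type} [Fintype P] {m : ℕ} (A0 : Matrix (Fin m) (Fin m) K)
    (B : P → Matrix (Fin m) (Fin m) K) (i j : Fin m) :
    linM A0 B i j = C (A0 i j) + ∑ e, X e * C (B e i j) := by
  simp [linM, Matrix.sum_apply]

theorem linM_degree {P : Type} [Fintype P] {m : ℕ} (A0 : Matrix (Fin m) (Fin m) K)
    (B : P → Matrix (Fin m) (Fin m) K) (i j : Fin m) : (linM A0 B i j).totalDegree ≤ 1 := by
  rw [linM_apply]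
  refine (totalDegree_add _ _).trans (max_le ?_ ?_)
  · rw [totalDegree_C]; exact Nat.zero_le _
  · refine totalDegree_finsetSum_le fun e _ => ?_
    refine (totalDegree_mul _ _).trans ?_
    rw [totalDegree_C, add_zero]
    exact (totalDegree_X (R := K) _).le

/-- the substitution of the sparse matrix -/
noncomputable def subM {n : ℕ} {P : Type} [Fintype P] (c0 : Fin n × Fin n → K)
    (cell : P → Fin n × Fin n) : MvPolynomial (Fin n × Fin n) K →ₐ[K] MvPolynomial P K := by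
  classical
  exact aeval fun p => C (c0 p) + ∑ e ∈ univ.filter (fun e => cell e = p), X e

theorem subM_linM {n : ℕ} {P : Type} [Fintype P] (c0 : Fin n × Fin n → K)
    (cell : P → Fin n × Fin n) {m : ℕ} (A0 : Matrix (Fin m) (Fin m) K)
    (B : Fin n × Fin n → Matrix (Fin m) (Fin m) K) :
    (linM A0 B).map (subM c0 cell) = linM (A0 + ∑ p, c0 p • B p) (fun e => B (cell e)) := by
  classical
  ext i j : 1
  rw [Matrix.map_apply, linM_apply, linM_apply, map_add, map_sum]
  have h1 : subM c0 cell (C (A0 i j)) = C (A0 i j) := by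
    rw [subM, aeval_C]; rfl
  have h2 : ∀ p : Fin n × Fin n, subM c0 cell (X p * C (B p i j)) =
      C (c0 p * B p i j) + ∑ e : P, if cell e = p then X e * C (B (cell e) i j) else 0 := by
    intro p
    rw [map_mul, subM, aeval_X, aeval_C, MvPolynomial.algebraMap_eq, add_mul, ← C_mul,
      Finset.sum_mul, Finset.sum_filter]
    congr 1
    apply Finset.sum_congr rfl
    intro e _
    split_ifs with h
    · rw [h]
    · rfl
  rw [h1, Finset.sum_congr rfl fun p _ => h2 p, Finset.sum_add_distrib, Finset.sum_comm,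
    ← add_assoc]
  congr 1
  · rw [← map_sum, ← C_add]
    simp [Matrix.add_apply, Matrix.sum_apply]
  · apply Finset.sum_congr rfl
    intro e _
    simp

theorem main_RO [CharZero K] {n m ρ M t D N a : ℕ} (s : Fin t → ℕ)
    (A0 : ∀ i, Matrix (Fin (s i)) (Fin (s i)) K)
    (B : ∀ i, Fin n × Fin n → Matrix (Fin (s i)) (Fin (s i)) K)
    (hs : ∀ i, s i ≤ m ∨ ∀ e, (B i e).rank ≤ ρ)
    (h : (Matrix.of fun i j => (X (i, j) : MvPolynomial (Fin n × Fin n) K)).permanent =
      ∑ i, (linM (A0 i) (B i)).det)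
    (hmM : m ≤ M) (hρM : ρ * (D * (2 * N + (a + 1) ^ 2)) ≤ M) (hDM : D < M)
    (haN : a < N) (hn : D * (4 * N + 2 * a + 1) ≤ n)
    (Q : ℝ≥0∞) (hQ : Q < 1) :
    Q ^ (a * (2 * D)) * (1 - (1 - Q ^ N) ^ (a + 1)) ^ (2 * D) ≤
      Q ^ ((N - a) * (2 * D)) * (t *
        (∑ j ∈ Finset.range (D + 1), (Nat.choose (M - D - 1 + j) j : ℝ≥0∞) * (1 - Q) ^ j) ^ 2) := by
  classical
  have : Infinite K := CharZero.infinite K
  obtain ⟨c0, cell, H, hH1, hH2⟩ := RO3 K (n := n) (D := D) (N := N) (a := a) hn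
  have hcard : Fintype.card (PC D N a) = D * (2 * N + (a + 1) ^ 2) := by
    simp [PC, Fintype.card_sum, Fintype.card_prod]
    ring
  -- the restricted determinants
  have hL0 : ∀ i, ∃ L : Matrix (Fin M) (Fin M) (MvPolynomial (PC D N a) K),
      (∀ p q, (L p q).totalDegree ≤ 1) ∧ subM c0 cell (linM (A0 i) (B i)).det = L.det := by
    intro i
    have e1 : subM c0 cell (linM (A0 i) (B i)).det =
        (linM (A0 i + ∑ p, c0 p • B i p) (fun e => B i (cell e))).det := by
      rw [AlgHom.map_det, ← subM_linM]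
      rfl
    rw [e1]
    rcases hs i with h1 | h1
    · obtain ⟨L, hL1, hL2⟩ := Pool.Agent.SDet.exists_pad (h1.trans hmM)
        (linM (A0 i + ∑ p, c0 p • B i p) (fun e => B i (cell e)))
        (fun p q => linM_degree _ _ p q)
      exact ⟨L, hL1, hL2.symm⟩
    · exact Pool.Agent.Helper41.SD.det_low_rank_pad (A0 i + ∑ p, c0 p • B i p)
        (fun e => B i (cell e)) (fun e => h1 _) (by rw [hcard, mul_comm]; exact hρM) (by omega)
  choose L0 hL01 hL02 using hL0
  choose L hL1 hL2 using fun i => hH2 M (L0 i) (hL01 i)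
  have hmem : ∀ k : (Fin D ⊕ Fin D) → Fin (a + 1),
      ∏ b, rename (fun v => (b, v)) (gp K N a (k b)) ∈ ⨆ i, detSpan (L i) (M - D) := by
    intro k
    rw [← hH1 k]
    have e2 : (Matrix.of fun i j : Fin n => (C (c0 (i, j)) +
          ∑ e ∈ univ.filter (fun e => cell e = (i, j)), X e : MvPolynomial (PC D N a) K)).permanent
        = ∑ i, (L0 i).det := by
      have e3 : subM c0 cell (Matrix.of fun i j : Fin n =>
          (X (i, j) : MvPolynomial (Fin n × Fin n) K)).permanent =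
          (Matrix.of fun i j : Fin n => (C (c0 (i, j)) +
          ∑ e ∈ univ.filter (fun e => cell e = (i, j)), X e :
            MvPolynomial (PC D N a) K)).permanent := by
        rw [Matrix.permanent, Matrix.permanent, map_sum]
        refine Finset.sum_congr rfl fun τ _ => ?_
        rw [map_prod]
        refine Finset.prod_congr rfl fun i _ => ?_
        simp only [Matrix.of_apply, subM, aeval_X]
      rw [← e3, h, map_sum]
      exact Finset.sum_congr rfl fun i _ => hL02 i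
    rw [e2, map_sum]
    exact Submodule.sum_mem _ fun i _ => Submodule.mem_iSup_of_mem i (hL2 i k)
  have hk1 : 1 ≤ M - D := by omega
  have hkm : M - D ≤ M := Nat.sub_le _ _
  have hcard2 : Fintype.card (Fin D ⊕ Fin D) = 2 * D := by simp; ring
  have hmain := RO4 K (Fin D ⊕ Fin D) (Fin M × Fin M) N a haN Q hQ
  rw [hcard2] at hmain
  refine hmain.trans (mul_le_mul' le_rfl ?_)
  have hc2 : Fintype.card (((Fin D ⊕ Fin D) × Option (Fin N)) ⊕ (Fin M × Fin M)) + 1 =
      Fintype.card ((Fin D ⊕ Fin D) × Option (Fin N)) + M * M + 1 := by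
    simp [Fintype.card_sum, Fintype.card_prod]
  rw [hc2]
  set cc := Fintype.card ((Fin D ⊕ Fin D) × Option (Fin N)) with hcc
  set cnt : ℕ → ℕ := fun l => ∑ f : Fin (M - D) ↪o Fin M, ∑ g : Fin (M - D) ↪o Fin M,
        Nat.multichoose (cc + M * M + 1 - rho f - rho g) l with hcnt
  have h1 : ∀ l, (Module.finrank K (Vl (Fin D ⊕ Fin D) (Fin M × Fin M) (gp K N a) l) : ℝ≥0∞) ≤
      t * (cnt l : ℝ≥0∞) := by
    intro l
    have := finrank_Vl_le (K := K) (l := l) hkm (gp K N a) L hL1 hmem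
    calc (Module.finrank K (Vl (Fin D ⊕ Fin D) (Fin M × Fin M) (gp K N a) l) : ℝ≥0∞)
        ≤ ((t * cnt l : ℕ) : ℝ≥0∞) := by exact_mod_cast this
      _ = t * (cnt l : ℝ≥0∞) := by push_cast; ring
  calc (1 - Q) ^ (cc + M * M + 1) * ∑' l, Q ^ l *
        (Module.finrank K (Vl (Fin D ⊕ Fin D) (Fin M × Fin M) (gp K N a) l) : ℝ≥0∞)
      ≤ (1 - Q) ^ (cc + M * M + 1) * ∑' l, Q ^ l * (t * (cnt l : ℝ≥0∞)) := by
        gcongr with l
        exact h1 l
    _ = t * ((1 - Q) ^ (cc + M * M + 1) * ∑' l, Q ^ l * (cnt l : ℝ≥0∞)) := by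
        have : ∀ l, Q ^ l * (t * (cnt l : ℝ≥0∞)) = t * (Q ^ l * (cnt l : ℝ≥0∞)) := by
          intro l; ring
        simp_rw [this]
        rw [ENNReal.tsum_mul_left]
        ring
    _ ≤ t * (∑ f : Fin (M - D) ↪o Fin M, (1 - Q) ^ rho f) ^ 2 := by
        gcongr
        exact Pool.Agent.Helper90.SD.U3_series Q hQ
    _ ≤ _ := by
        have e1 : M - (M - D) = D := by omega
        have e2 := Pool.Agent.Helper90.SD.U3_rho (m := M) hk1 (1 - Q)
        rw [e1] at e2
        gcongr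

theorem main_RO_real [CharZero K] {n m ρ M t D N a : ℕ} (s : Fin t → ℕ)
    (A0 : ∀ i, Matrix (Fin (s i)) (Fin (s i)) K)
    (B : ∀ i, Fin n × Fin n → Matrix (Fin (s i)) (Fin (s i)) K)
    (hs : ∀ i, s i ≤ m ∨ ∀ e, (B i e).rank ≤ ρ)
    (h : (Matrix.of fun i j => (X (i, j) : MvPolynomial (Fin n × Fin n) K)).permanent =
      ∑ i, (linM (A0 i) (B i)).det)
    (hmM : m ≤ M) (hρM : ρ * (D * (2 * N + (a + 1) ^ 2)) ≤ M) (hDM : D < M)
    (haN : a < N) (hn : D * (4 * N + 2 * a + 1) ≤ n)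
    (q : ℝ) (hq0 : 0 < q) (hq1 : q < 1) :
    q ^ (a * (2 * D)) * (1 - (1 - q ^ N) ^ (a + 1)) ^ (2 * D) ≤
      t * q ^ ((N - a) * (2 * D)) *
        (∑ j ∈ Finset.range (D + 1), (Nat.choose (M - D - 1 + j) j : ℝ) * (1 - q) ^ j) ^ 2 := by
  have hQ : ENNReal.ofReal q < 1 := by
    rw [← ENNReal.ofReal_one]
    exact (ENNReal.ofReal_lt_ofReal_iff (by norm_num)).mpr hq1
  have key := main_RO s A0 B hs h hmM hρM hDM haN hn (ENNReal.ofReal q) hQ
  have e0 : (1 : ℝ≥0∞) - ENNReal.ofReal q = ENNReal.ofReal (1 - q) := by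
    rw [ENNReal.ofReal_sub _ hq0.le, ENNReal.ofReal_one]
  have h1q : 0 ≤ 1 - q := by linarith
  have hqN : q ^ N ≤ 1 := pow_le_one₀ hq0.le hq1.le
  have h1qN : 0 ≤ 1 - q ^ N := by linarith
  have h1qN' : (1 - q ^ N) ^ (a + 1) ≤ 1 := pow_le_one₀ h1qN (by linarith [pow_pos hq0 N])
  have e1 : ((1 : ℝ≥0∞) - (1 - ENNReal.ofReal q ^ N) ^ (a + 1)) ^ (2 * D) =
      ENNReal.ofReal ((1 - (1 - q ^ N) ^ (a + 1)) ^ (2 * D)) := by
    rw [ENNReal.ofReal_pow (by linarith), ENNReal.ofReal_sub _ (pow_nonneg h1qN _),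
      ENNReal.ofReal_pow h1qN, ENNReal.ofReal_sub _ (pow_nonneg hq0.le _),
      ENNReal.ofReal_pow hq0.le, ENNReal.ofReal_one]
  have e2 : ∑ j ∈ Finset.range (D + 1), (Nat.choose (M - D - 1 + j) j : ℝ≥0∞) *
      (1 - ENNReal.ofReal q) ^ j = ENNReal.ofReal (∑ j ∈ Finset.range (D + 1),
        (Nat.choose (M - D - 1 + j) j : ℝ) * (1 - q) ^ j) := by
    rw [ENNReal.ofReal_sum_of_nonneg (fun j _ => by positivity)]
    apply Finset.sum_congr rfl
    intro j _
    rw [e0, ENNReal.ofReal_mul (by positivity), ENNReal.ofReal_pow h1q, ENNReal.ofReal_natCast]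
  have hS : 0 ≤ ∑ j ∈ Finset.range (D + 1), (Nat.choose (M - D - 1 + j) j : ℝ) * (1 - q) ^ j :=
    Finset.sum_nonneg (fun j _ => by positivity)
  have hL : 0 ≤ 1 - (1 - q ^ N) ^ (a + 1) := by linarith
  rw [e1, e2, ← ENNReal.ofReal_pow hq0.le, ← ENNReal.ofReal_pow hq0.le, ← ENNReal.ofReal_pow hS,
    ← ENNReal.ofReal_natCast,
    ← ENNReal.ofReal_mul (by positivity), ← ENNReal.ofReal_mul (by positivity),
    ← ENNReal.ofReal_mul (by positivity)] at key
  have h3 := (ENNReal.ofReal_le_ofReal_iff (by positivity)).mp key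
  calc _ ≤ _ := h3
    _ = _ := by ring

theorem det_eval {n m : ℕ} (A0 : Matrix (Fin m) (Fin m) K)
    (B : Fin n × Fin n → Matrix (Fin m) (Fin m) K) (M : Matrix (Fin n) (Fin n) ℕ) :
    ((linM A0 B).map (eval fun v => (M v.1 v.2 : K))) =
      A0 + ∑ e : Fin n × Fin n, (M e.1 e.2 : K) • B e := by
  ext i j
  rw [Matrix.map_apply, linM_apply, map_add, map_sum, eval_C]
  simp [Matrix.add_apply, Matrix.sum_apply]

theorem final_RO : ∃ c : ℝ, 0 < c ∧ ∀ (K : Type) [Field K] [CharZero K] (n m ρ t : ℕ),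
    1 ≤ n → 1 ≤ ρ →
    ∀ (s : Fin t → ℕ) (A : ∀ i, Matrix (Fin (s i)) (Fin (s i)) K)
      (B : ∀ i, Fin n × Fin n → Matrix (Fin (s i)) (Fin (s i)) K),
    (∀ i, s i ≤ m ∨ ∀ e, (B i e).rank ≤ ρ) →
    (∀ M : Matrix (Fin n) (Fin n) ℕ,
      (M.permanent : K) = ∑ i, (A i + ∑ e : Fin n × Fin n, (M e.1 e.2 : K) • B i e).det) →
    Real.exp (c * n / (ρ * max ((m : ℝ) / n) ρ *
      (1 + Real.log (max ((m : ℝ) / n) ρ)) ^ 2)) ≤ 2 * t := by
  obtain ⟨c, hc, H⟩ := Pool.Agent.Helper90.SD.RO.RO_numerics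
  refine ⟨c, hc, ?_⟩
  intro K _ _ n m ρ t hn hρ s A B hs h
  have hid : (Matrix.of fun i j => (X (i, j) : MvPolynomial (Fin n × Fin n) K)).permanent =
      ∑ i, (linM (A i) (B i)).det := by
    apply functional (m := n + ∑ i, s i) (Nat.le_add_right _ _) s
      (fun i => (Finset.single_le_sum (fun j _ => Nat.zero_le (s j)) (Finset.mem_univ i)).trans
        (Nat.le_add_left _ _)) (fun i => linM (A i) (B i)) (fun i p q => linM_degree _ _ p q)
    intro M _
    rw [h M]
    exact Finset.sum_congr rfl fun i _ => by rw [det_eval]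
  have ht : 1 ≤ t := by
    rcases Nat.eq_zero_or_pos t with ht | ht
    · subst ht
      exact absurd (by simpa using hid) (permanent_generic_ne_zero (K := K) n)
    · exact ht
  apply H n m ρ t hn hρ ht
  intro D N a hD haN hDn q hq0 hq1
  refine main_RO_real s A B hs hid (le_max_left _ _) (le_max_right _ _) ?_ haN hDn q hq0 hq1
  apply lt_of_lt_of_le _ (le_max_right _ _)
  have h1 : 2 ≤ 2 * N + (a + 1) ^ 2 := by omega
  calc D < D * 2 := by omega
    _ ≤ D * (2 * N + (a + 1) ^ 2) := Nat.mul_le_mul_left _ h1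
    _ ≤ ρ * (D * (2 * N + (a + 1) ^ 2)) := Nat.le_mul_of_pos_left _ hρ

end Pool.SDL
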