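import Pool.Agent.Helper55.SD.RO6
import Pool.Agent.Helper55.SD.Grid

/-! # RO: the identity is needed only on small integer matrices -/

open MvPolynomial Finset
open scoped BigOperators ENNReal

namespace Pool.SDL

variable {K : Type} [Field K]

theorem degreeOf_perm_le {n : ℕ} (e : Fin n × Fin n) :
    (Matrix.of fun i j => (X (i, j) : MvPolynomial (Fin n × Fin n) K)).permanent.degreeOf e
      ≤ 1 := by
  classical
  rw [Matrix.permanent]
  refine (degreeOf_sum_le _ _ _).trans (Finset.sup_le fun τ _ => ?_)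
  refine (degreeOf_prod_le _ _ _).trans ?_
  calc ∑ i, (Matrix.of (fun i j => (X (i, j) : MvPolynomial (Fin n × Fin n) K))
        (τ i) i).degreeOf e
      ≤ ∑ i : Fin n, if i = e.2 then 1 else 0 := Finset.sum_le_sum fun i _ => by
        simp only [Matrix.of_apply]
        split_ifs with h
        · rw [degreeOf_X]
          split_ifs <;> omega
        · rw [degreeOf_X_of_ne]
          intro h1
          exact h (by rw [h1])
    _ = 1 := by simp

theorem final_RO_grid : ∃ c : ℝ, 0 < c ∧ ∀ (K : Type) [Field K] [CharZero K] (n m ρ d t : ℕ),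
    1 ≤ n → 1 ≤ ρ → 1 ≤ d →
    ∀ (s : Fin t → ℕ) (A : ∀ i, Matrix (Fin (s i)) (Fin (s i)) K)
      (B : ∀ i, Fin n × Fin n → Matrix (Fin (s i)) (Fin (s i)) K),
    (∀ i, s i ≤ m ∨ ∀ e, (B i e).rank ≤ ρ) → (∀ i e, (B i e).rank ≤ d) →
    (∀ M : Matrix (Fin n) (Fin n) ℕ, (∀ a b, M a b ≤ d) →
      (M.permanent : K) = ∑ i, (A i + ∑ e : Fin n × Fin n, (M e.1 e.2 : K) • B i e).det) →
    Real.exp (c * n / (ρ * max ((m : ℝ) / n) ρ *
      (1 + Real.log (max ((m : ℝ) / n) ρ)) ^ 2)) ≤ 2 * t := by
  obtain ⟨c, hc, H⟩ := final_RO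
  refine ⟨c, hc, ?_⟩
  intro K _ _ n m ρ d t hn hρ hd s A B hs hB h
  have hid : (Matrix.of fun i j => (X (i, j) : MvPolynomial (Fin n × Fin n) K)).permanent =
      ∑ i, (linM (A i) (B i)).det := by
    refine grid (d := d) _ _ (fun e => (degreeOf_perm_le e).trans hd) (fun e => ?_) ?_
    · refine (degreeOf_sum_le _ _ _).trans (Finset.sup_le fun i _ => ?_)
      exact (degreeOf_det_rank (A i) (B i) e).trans (hB i e)
    · intro v hv
      have h1 := h (Matrix.of fun a b => v (a, b)) (fun a b => hv _)
      rw [map_sum]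
      have h2 : eval (fun e => (v e : K)) (Matrix.of fun i j =>
          (X (i, j) : MvPolynomial (Fin n × Fin n) K)).permanent =
          ((Matrix.of fun a b => v (a, b)).permanent : ℕ) := by
        rw [Matrix.permanent, Matrix.permanent, map_sum, Nat.cast_sum]
        refine Finset.sum_congr rfl fun τ _ => ?_
        rw [map_prod, Nat.cast_prod]
        refine Finset.prod_congr rfl fun i _ => ?_
        simp only [Matrix.of_apply, eval_X]
      rw [h2, h1]
      refine Finset.sum_congr rfl fun i _ => ?_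
      have h3 := det_eval (A i) (B i) (Matrix.of fun a b => v (a, b))
      rw [← h3, RingHom.map_det]
      rfl
  apply H K n m ρ t hn hρ s A B hs
  intro M
  have h4 := congrArg (eval fun v => (M v.1 v.2 : K)) hid
  rw [map_sum] at h4
  have h5 : eval (fun v : Fin n × Fin n => (M v.1 v.2 : K)) (Matrix.of fun i j =>
      (X (i, j) : MvPolynomial (Fin n × Fin n) K)).permanent = (M.permanent : K) := by
    rw [Matrix.permanent, Matrix.permanent, map_sum, Nat.cast_sum]
    refine Finset.sum_congr rfl fun τ _ => ?_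
    rw [map_prod, Nat.cast_prod]
    refine Finset.prod_congr rfl fun i _ => ?_
    simp only [Matrix.of_apply, eval_X]
  rw [← h5, h4]
  refine Finset.sum_congr rfl fun i _ => ?_
  rw [RingHom.map_det, ← det_eval]
  rfl

end Pool.SDL
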