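import Pool.Agent.SDet.Defs

/-! # RO (determinants of any size, variables of bounded rank): the block with few variable cells -/

open MvPolynomial Finset
open scoped BigOperators ENNReal

namespace Pool.SDL

universe u

/-- rows of the sparse tall block: `R_j`, `R'_j`, `S_k` -/
abbrev GR (N a : ℕ) : Type := Fin N ⊕ (Fin N ⊕ Fin (a + 1))

/-- columns of the sparse tall block: `c_j`, type A, type B -/
abbrev GC (N a : ℕ) : Type := Fin N ⊕ (Fin N ⊕ Fin a)

/-- the sparse tall block with `h = 1`: the only variable cells are `(R_j, c_j)` -/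
noncomputable def gad (K : Type u) [Field K] (N a : ℕ) :
    GR N a → GC N a → MvPolynomial (Option (Fin N)) K
  | Sum.inl j, Sum.inl i => if i = j then X (some j) else 0
  | Sum.inl _, Sum.inr (Sum.inl _) => 0
  | Sum.inl _, Sum.inr (Sum.inr _) => 1
  | Sum.inr (Sum.inl j), Sum.inl i => if i = j then 1 else 0
  | Sum.inr (Sum.inl _), Sum.inr (Sum.inl _) => 1
  | Sum.inr (Sum.inl _), Sum.inr (Sum.inr _) => 0
  | Sum.inr (Sum.inr _), Sum.inl _ => 0
  | Sum.inr (Sum.inr _), Sum.inr (Sum.inl _) => 1
  | Sum.inr (Sum.inr k), Sum.inr (Sum.inr _) => C (-(k : ℕ) : K)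

/-- the block subpermanent of the sparse block: the special row `k` is omitted -/
noncomputable def gp (K : Type u) [Field K] (N a : ℕ) (k : Fin (a + 1)) :
    MvPolynomial (Option (Fin N)) K :=
  rper (fun (i : {i : GR N a // i ≠ Sum.inr (Sum.inr k)}) (j : GC N a) => gad K N a i.1 j)

/-- the variable cells: `u`-cells of the `2 D` blocks and the corners of the `D` superblocks -/
abbrev PC (D N a : ℕ) : Type :=
  ((Fin D ⊕ Fin D) × Fin N) ⊕ (Fin D × (Fin (a + 1) × Fin (a + 1)))

end Pool.SDL
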