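import Pool.Agent.Helper55.SD.Defs

/-! # permanents of matrices with two types of columns -/

open Finset
open scoped BigOperators Nat

set_option linter.unusedSectionVars false

namespace Pool.SDL

variable {R ι α β : Type*} [CommRing R] [Fintype ι] [DecidableEq ι] [Fintype α] [DecidableEq α]
  [Fintype β] [DecidableEq β]

/-- rows sent to the first type of columns -/
def lset (e : ι ≃ α ⊕ β) : Finset ι := univ.filter (fun i => (e i).isLeft = true)

theorem mem_lset (e : ι ≃ α ⊕ β) (i : ι) : i ∈ lset e ↔ (e i).isLeft = true := by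
  simp [lset]

theorem card_lset (e : ι ≃ α ⊕ β) : (lset e).card = Fintype.card α := by
  have h : (lset e) = (univ : Finset α).map ⟨fun a => e.symm (Sum.inl a), fun x y h => by
      simpa using h⟩ := by
    ext i
    simp only [mem_lset, mem_map, mem_univ, true_and, Function.Embedding.coeFn_mk]
    constructor
    · intro h
      obtain ⟨a, ha⟩ := Sum.isLeft_iff.1 h
      exact ⟨a, by rw [← ha]; simp⟩
    · rintro ⟨a, rfl⟩
      simp
  rw [h, card_map, card_univ]

/-- bijections with a given set of rows of the first type -/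
def fibE (S : Finset ι) : {e : ι ≃ α ⊕ β // lset e = S} ≃
    ({i // i ∈ S} ≃ α) × ({i // ¬ i ∈ S} ≃ β) where
  toFun e :=
    ((e.1.subtypeEquiv (fun i => by
        have h := Finset.ext_iff.1 e.2 i
        rw [mem_lset] at h
        exact h.symm) : {i // i ∈ S} ≃ {x : α ⊕ β // x.isLeft = true}).trans
        Equiv.sumIsLeft,
      (e.1.subtypeEquiv (fun i => by
        have h := Finset.ext_iff.1 e.2 i
        rw [mem_lset] at h
        rw [← h]
        cases e.1 i <;> simp) : {i // ¬ i ∈ S} ≃ {x : α ⊕ β // x.isRight = true}).trans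
        Equiv.sumIsRight)
  invFun p := ⟨(Equiv.sumCompl (fun i => i ∈ S)).symm.trans (Equiv.sumCongr p.1 p.2), by
    ext i
    rw [mem_lset]
    by_cases hi : i ∈ S
    · simp [Equiv.trans_apply, Equiv.sumCompl_symm_apply_of_pos, hi]
    · simp [Equiv.trans_apply, Equiv.sumCompl_symm_apply_of_neg, hi]⟩
  left_inv e := by
    apply Subtype.ext
    ext i
    by_cases hi : i ∈ S
    · have h1 : (e.1 i).isLeft = true := by rw [← mem_lset, e.2]; exact hi
      obtain ⟨a, ha⟩ := Sum.isLeft_iff.1 h1
      simp [Equiv.sumCompl_symm_apply_of_pos, hi, Equiv.sumIsLeft, ha]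
    · have h1 : ¬ (e.1 i).isLeft = true := by rw [← mem_lset, e.2]; exact hi
      have h2 : (e.1 i).isRight = true := by
        cases h : e.1 i
        · rw [h] at h1; simp at h1
        · simp
      obtain ⟨b, hb⟩ := Sum.isRight_iff.1 h2
      simp [Equiv.sumCompl_symm_apply_of_neg, hi, Equiv.sumIsRight, hb]
  right_inv p := by
    refine Prod.ext ?_ ?_
    · ext ⟨i, hi⟩
      simp [Equiv.sumCompl_symm_apply_of_pos, hi, Equiv.sumIsLeft]
    · ext ⟨i, hi⟩
      simp [Equiv.sumCompl_symm_apply_of_neg, hi, Equiv.sumIsRight]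

theorem card_fib (S : Finset ι) (hS : S.card = Fintype.card α)
    (hc : Fintype.card ι = Fintype.card α + Fintype.card β) :
    (univ.filter (fun e : ι ≃ α ⊕ β => lset e = S)).card =
      (Fintype.card α)! * (Fintype.card β)! := by
  rw [← Fintype.card_subtype, Fintype.card_congr (fibE S), Fintype.card_prod]
  have h1 : Fintype.card {i // i ∈ S} = Fintype.card α := by simp [hS]
  have h2 : Fintype.card {i // ¬ i ∈ S} = Fintype.card β := by
    rw [Fintype.card_subtype_compl]
    simp [hS, hc]
  obtain ⟨e1⟩ := Fintype.card_eq.1 h1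
  obtain ⟨e2⟩ := Fintype.card_eq.1 h2
  rw [Fintype.card_equiv e1, Fintype.card_equiv e2, h1, h2]

theorem two_types (a b : ι → R) (hc : Fintype.card ι = Fintype.card α + Fintype.card β) :
    rper (fun (i : ι) (j : α ⊕ β) => Sum.elim (fun _ => a i) (fun _ => b i) j) =
      ((Fintype.card α)! * (Fintype.card β)! : ℕ) •
        (∏ i, (Polynomial.C (a i) * Polynomial.X + Polynomial.C (b i))).coeff
          (Fintype.card α) := by
  classical
  rw [prod_add, Polynomial.finsetSum_coeff]
  have h1 : ∀ S ∈ (univ : Finset ι).powerset,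
      ((∏ i ∈ S, (Polynomial.C (a i) * Polynomial.X)) *
        ∏ i ∈ univ \ S, Polynomial.C (b i)).coeff (Fintype.card α) =
      if S.card = Fintype.card α then (∏ i ∈ S, a i) * ∏ i ∈ univ \ S, b i else 0 := by
    intro S _
    rw [prod_mul_distrib, prod_const, ← map_prod, ← map_prod, mul_right_comm, ← Polynomial.C_mul,
      Polynomial.coeff_C_mul_X_pow]
    simp [eq_comm]
  rw [sum_congr rfl h1, rper]
  have h2 : ∀ e : ι ≃ α ⊕ β, (∏ i, Sum.elim (fun _ => a i) (fun _ => b i) (e i)) =
      (∏ i ∈ lset e, a i) * ∏ i ∈ univ \ lset e, b i := by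
    intro e
    rw [← prod_sdiff (subset_univ (lset e)), mul_comm]
    congr 1
    · apply prod_congr rfl
      intro i hi
      rw [mem_lset] at hi
      obtain ⟨x, hx⟩ := Sum.isLeft_iff.1 hi
      rw [hx]; rfl
    · apply prod_congr rfl
      intro i hi
      rw [mem_sdiff, mem_lset] at hi
      cases h : e i
      · rw [h] at hi; simp at hi
      · rfl
  rw [sum_congr rfl (fun e _ => h2 e)]
  rw [← sum_fiberwise_of_maps_to (s := (univ : Finset (ι ≃ α ⊕ β)))
    (t := (univ : Finset ι).powerset) (g := lset) (fun e _ => by simp), smul_sum]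
  apply sum_congr rfl
  intro S _
  have h3 : ∀ e ∈ univ.filter (fun e : ι ≃ α ⊕ β => lset e = S),
      ((∏ i ∈ lset e, a i) * ∏ i ∈ univ \ lset e, b i) =
      (∏ i ∈ S, a i) * ∏ i ∈ univ \ S, b i := by
    intro e he
    rw [mem_filter] at he
    rw [he.2]
  rw [sum_congr rfl h3, sum_const]
  by_cases hS : S.card = Fintype.card α
  · rw [if_pos hS, card_fib S hS hc]
  · rw [if_neg hS, smul_zero]
    have : (univ.filter (fun e : ι ≃ α ⊕ β => lset e = S)) = ∅ := by
      apply filter_eq_empty_iff.2
      intro e _ he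
      exact hS (by rw [← he, card_lset])
    rw [this]; simp

end Pool.SDL
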